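import Pool.Agent.Lib.helper30.Xi2

set_option autoImplicit false

namespace Pool.Agent.Results.MP_485030_co.AllBut

/-- For every `n ≥ 1` other than `2, 4, 6` there is a nondegenerate simplex `S` with
`S ⊆ [0,1]^n ⊆ nS` (homothety centred at the centroid of the vertices). -/
theorem result (n : ℕ) (h0 : 1 ≤ n) (h2 : n ≠ 2) (h4 : n ≠ 4) (h6 : n ≠ 6) :
    ∃ v : Fin (n + 1) → (Fin n → ℝ),
      AffineIndependent ℝ v ∧
      convexHull ℝ (Set.range v) ⊆ Set.Icc (0 : Fin n → ℝ) 1 ∧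
      Set.Icc (0 : Fin n → ℝ) 1 ⊆
        AffineMap.homothety (Finset.univ.centroid ℝ v) (n : ℝ) '' convexHull ℝ (Set.range v) := by
  obtain ⟨v, h1, h2, h3⟩ := Pool.Agent.Lib.Helper30.Xi.good_all n h0 h2 h4 h6
  refine ⟨v, h1, convexHull_min ?_ (convex_Icc _ _), fun x hx => h3 x fun j => ⟨hx.1 j, hx.2 j⟩⟩
  rintro _ ⟨i, rfl⟩
  exact ⟨fun j => (h2 i j).1, fun j => (h2 i j).2⟩

end Pool.Agent.Results.MP_485030_co.AllBut
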